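import Pool.Agent.Q174.Sh.Defs

set_option autoImplicit false

/-! The normalised bracket of a resolution in terms of the Gauss word and the signs. -/

namespace Pool.Agent.Q174.Sh

open Finset Function LaurentPolynomial
open Pool.Agent.H832R2.JR Pool.Agent.H891R2.Jones Pool.Agent.H832R3.VJ

variable {N : ℕ}

/-- the signs of the crossings of a resolution -/
def sg (ε o : Fin N → Bool) (c : Fin N) : Bool := o c == ε c

theorem len_diagram (G : GaussWord N) (ε o : Fin N → Bool) :
    (diagram G ε o).crossings.length = N := by
  simp [diagram]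

theorem get_diagram (G : GaussWord N) (ε o : Fin N → Bool)
    (i : Fin (diagram G ε o).crossings.length) :
    (diagram G ε o).crossings[i] = crossing ε o (Fin.cast (len_diagram G ε o) i) := by
  show (diagram G ε o).crossings[(i : ℕ)] = _
  simp only [diagram, List.getElem_map, List.getElem_finRange]
  rfl

theorem sign_crossing (ε o : Fin N → Bool) (c : Fin N) :
    (crossing ε o c).sign = sgn (sg ε o c) := by
  cases h : o c <;> cases h' : ε c <;> simp [crossing, Crossing.sign, rot, sg, sgn, h, h']

theorem writhe_diagram (G : GaussWord N) (ε o : Fin N → Bool) :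
    (diagram G ε o).writhe = writhe (sg ε o) := by
  unfold Diagram.writhe writhe
  simp only [diagram, List.map_map]
  have : (Crossing.sign ∘ crossing ε o) = fun c => sgn (sg ε o c) := by
    funext c
    exact sign_crossing ε o c
  rw [this, ← List.ofFn_eq_map, List.sum_ofFn]

/-- the states of the diagram -/
def stt (G : GaussWord N) (ε o : Fin N → Bool) (s : Fin N → Bool) :
    Fin (diagram G ε o).crossings.length → Bool :=
  fun i => s (Fin.cast (len_diagram G ε o) i) == sg ε o (Fin.cast (len_diagram G ε o) i)

theorem stt_bij (G : GaussWord N) (ε o : Fin N → Bool) : Bijective (stt G ε o) := by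
  refine bijective_iff_has_inverse.2
    ⟨fun t c => t (Fin.cast (len_diagram G ε o).symm c) == sg ε o c, fun s => ?_, fun t => ?_⟩
  · funext c
    simp only [stt, Fin.cast_cast, Fin.cast_eq_self]
    cases s c <;> cases sg ε o c <;> rfl
  · funext i
    simp only [stt, Fin.cast_cast, Fin.cast_eq_self]
    cases t i <;> cases sg ε o (Fin.cast (len_diagram G ε o) i) <;> rfl

theorem weight_stt (G : GaussWord N) (ε o s : Fin N → Bool) :
    Diagram.weight (stt G ε o s) = weight (sg ε o) s := by
  unfold Diagram.weight weight
  rw [← (finCongr (len_diagram G ε o)).sum_comp (fun c => sgn (sg ε o c) * sgn (s c))]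
  refine sum_congr rfl fun i _ => ?_
  have key : ∀ a b : Bool, (if (a == b) = true then (1 : ℤ) else -1) = sgn b * sgn a := by
    intro a b
    cases a <;> cases b <;> simp [sgn]
  exact key _ _

theorem mem_arcs (G : GaussWord N) (ε o : Fin N → Bool) (x y : Half N) :
    (x, y) ∈ (diagram G ε o).arcs ↔ ∃ p, x = (p, true) ∧ y = (next G p, false) := by
  simp only [diagram, List.mem_append, List.mem_map, List.mem_finRange, true_and, Prod.mk.injEq]
  constructor
  · rintro (⟨c, h1, h2⟩ | ⟨c, h1, h2⟩)
    · exact ⟨(c, false), h1.symm, h2.symm⟩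
    · exact ⟨(c, true), h1.symm, h2.symm⟩
  · rintro ⟨⟨c, b⟩, rfl, rfl⟩
    cases b
    · exact Or.inl ⟨c, rfl, rfl⟩
    · exact Or.inr ⟨c, rfl, rfl⟩

theorem loops_stt (G : GaussWord N) (ε o s : Fin N → Bool) :
    (diagram G ε o).loops (stt G ε o s) = loops G s := by
  unfold Diagram.loops loops
  refine card_quot_congr _ _ ?_ ?_
  · intro x y h
    rcases h with h | ⟨i, h⟩
    · obtain ⟨p, rfl, rfl⟩ := (mem_arcs G ε o x y).1 h
      exact Quot.sound (Or.inl ⟨p, rfl, rfl⟩)
    · rw [get_diagram] at h
      have h' : ((s (Fin.cast (len_diagram G ε o) i) == sg ε o (Fin.cast (len_diagram G ε o) i))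
            = true ∧
          ((x = (crossing ε o (Fin.cast (len_diagram G ε o) i)).a ∧
              y = (crossing ε o (Fin.cast (len_diagram G ε o) i)).b) ∨
            (x = (crossing ε o (Fin.cast (len_diagram G ε o) i)).c ∧
              y = (crossing ε o (Fin.cast (len_diagram G ε o) i)).d))) ∨
          ((s (Fin.cast (len_diagram G ε o) i) == sg ε o (Fin.cast (len_diagram G ε o) i))
            = false ∧
          ((x = (crossing ε o (Fin.cast (len_diagram G ε o) i)).b ∧
              y = (crossing ε o (Fin.cast (len_diagram G ε o) i)).c) ∨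
            (x = (crossing ε o (Fin.cast (len_diagram G ε o) i)).d ∧
              y = (crossing ε o (Fin.cast (len_diagram G ε o) i)).a))) := by
        by_cases hs : stt G ε o s i = true
        · rw [if_pos hs] at h
          exact Or.inl ⟨hs, h⟩
        · rw [if_neg hs] at h
          exact Or.inr ⟨Bool.eq_false_iff.2 hs, h⟩
      clear h
      generalize Fin.cast (len_diagram G ε o) i = c at h'
      have h := h'
      clear h'
      have hor : s c = true → ∀ b, Quot.mk (Joined G s) ((c, b), false) =
          Quot.mk (Joined G s) ((c, !b), true) :=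
        fun hs b => Quot.sound (Or.inr (Or.inl ⟨c, b, hs, rfl, rfl⟩))
      have hun : s c = false → ∀ e, Quot.mk (Joined G s) ((c, false), e) =
          Quot.mk (Joined G s) ((c, true), e) :=
        fun hs e => Quot.sound (Or.inr (Or.inr ⟨c, e, hs, rfl, rfl⟩))
      have u1 := fun hs => hor hs false
      have u2 := fun hs => hor hs true
      have u3 := fun hs => hun hs false
      have u4 := fun hs => hun hs true
      simp only [Bool.not_false, Bool.not_true] at u1 u2
      cases h1 : o c <;> cases h2 : ε c <;> cases h3 : s c <;>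
        simp [crossing, rot, sg, h1, h2, h3] at h <;>
        rcases h with ⟨rfl, rfl⟩ | ⟨rfl, rfl⟩ <;>
        first
          | exact u1 h3 | exact (u1 h3).symm | exact u2 h3 | exact (u2 h3).symm
          | exact u3 h3 | exact (u3 h3).symm | exact u4 h3 | exact (u4 h3).symm
  · intro x y h
    set r := (diagram G ε o).Joined (stt G ε o s) with hr
    have hcr : ∀ c : Fin N, (if (s c == sg ε o c) = true then
        (Quot.mk r (crossing ε o c).a = Quot.mk r (crossing ε o c).b ∧
          Quot.mk r (crossing ε o c).c = Quot.mk r (crossing ε o c).d) else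
        (Quot.mk r (crossing ε o c).b = Quot.mk r (crossing ε o c).c ∧
          Quot.mk r (crossing ε o c).d = Quot.mk r (crossing ε o c).a)) := by
      intro c
      have h0 := get_diagram G ε o (Fin.cast (len_diagram G ε o).symm c)
      rw [Fin.cast_cast, Fin.cast_eq_self] at h0
      have h1 : stt G ε o s (Fin.cast (len_diagram G ε o).symm c) = (s c == sg ε o c) := by
        simp only [stt, Fin.cast_cast, Fin.cast_eq_self]
      split_ifs with hs
      · constructor
        · refine Quot.sound (Or.inr ⟨Fin.cast (len_diagram G ε o).symm c, ?_⟩)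
          rw [h1, if_pos hs, h0]
          exact Or.inl ⟨rfl, rfl⟩
        · refine Quot.sound (Or.inr ⟨Fin.cast (len_diagram G ε o).symm c, ?_⟩)
          rw [h1, if_pos hs, h0]
          exact Or.inr ⟨rfl, rfl⟩
      · constructor
        · refine Quot.sound (Or.inr ⟨Fin.cast (len_diagram G ε o).symm c, ?_⟩)
          rw [h1, if_neg hs, h0]
          exact Or.inl ⟨rfl, rfl⟩
        · refine Quot.sound (Or.inr ⟨Fin.cast (len_diagram G ε o).symm c, ?_⟩)
          rw [h1, if_neg hs, h0]
          exact Or.inr ⟨rfl, rfl⟩
    rcases h with ⟨p, rfl, rfl⟩ | ⟨c, b, hs, rfl, rfl⟩ | ⟨c, e, hs, rfl, rfl⟩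
    · exact Quot.sound (Or.inl ((mem_arcs G ε o _ _).2 ⟨p, rfl, rfl⟩))
    · have hc := hcr c
      cases h1 : o c <;> cases h2 : ε c <;> cases b <;>
        simp [crossing, rot, sg, h1, h2, hs] at hc <;>
        first
          | exact hc.1 | exact hc.1.symm | exact hc.2 | exact hc.2.symm
    · have hc := hcr c
      cases h1 : o c <;> cases h2 : ε c <;> cases e <;>
        simp [crossing, rot, sg, h1, h2, hs] at hc <;>
        first
          | exact hc.1 | exact hc.1.symm | exact hc.2 | exact hc.2.symm

/-- the normalised bracket of a resolution -/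
theorem fPoly_diagram (G : GaussWord N) (ε o : Fin N → Bool) :
    (diagram G ε o).fPoly = fPoly G (sg ε o) := by
  unfold Diagram.fPoly fPoly
  rw [writhe_diagram]
  congr 1
  unfold Diagram.bracket bracket
  rw [← (stt_bij G ε o).sum_comp]
  refine sum_congr rfl fun s _ => ?_
  rw [weight_stt, loops_stt]

end Pool.Agent.Q174.Sh
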