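import Pool.Agent.H832R2.JR.Moment

set_option autoImplicit false

/-!
# The number of different cut sizes of a graph without isolated vertices

`Q A w = ∑ A i j w_i w_j` for the adjacency matrix `A` of a graph and `w_i = ± 1`: up to an affine
map this is the number of edges of the cut given by `w`.
-/

namespace Pool.Agent.Q174.Sh

open Finset Function Pool.Agent.H832R2.JR

variable {N : ℕ}

/-- the row sums with signs -/
def rs (A : Fin N → Fin N → ℤ) (w : Fin N → Bool) (v : Fin N) : ℤ := ∑ j, A v j * sgn (w j)

theorem sgn_flip (w : Fin N → Bool) (v i : Fin N) :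
    sgn (update w v (!w v) i) = sgn (w i) - (if i = v then 2 * sgn (w v) else 0) := by
  by_cases h : i = v
  · subst h
    cases hw : w i <;> simp [sgn]
  · simp [h]

theorem sgn_sq (b : Bool) : sgn b * sgn b = 1 := by cases b <;> simp [sgn]

theorem Q_flip (A : Fin N → Fin N → ℤ) (hs : ∀ i j, A i j = A j i) (hd : ∀ i, A i i = 0)
    (w : Fin N → Bool) (v : Fin N) :
    Q A (update w v (!w v)) = Q A w - 4 * (sgn (w v) * rs A w v) := by
  unfold Q rs
  have e1 : ∀ i j, A i j * (sgn (update w v (!w v) i) * sgn (update w v (!w v) j)) =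
      A i j * (sgn (w i) * sgn (w j)) -
        (if i = v then 2 * (sgn (w v) * (A v j * sgn (w j))) else 0) -
        (if j = v then 2 * (sgn (w v) * (A v i * sgn (w i))) else 0) := by
    intro i j
    rw [sgn_flip, sgn_flip]
    by_cases hi : i = v
    · by_cases hj : j = v
      · subst hi; subst hj
        simp [hd]
      · subst hi
        rw [if_pos rfl, if_neg hj, if_pos rfl, if_neg hj]
        ring
    · by_cases hj : j = v
      · subst hj
        rw [if_neg hi, if_pos rfl, if_neg hi, if_pos rfl, hs j i]
        ring
      · rw [if_neg hi, if_neg hj, if_neg hi, if_neg hj]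
        ring
  simp only [e1, sum_sub_distrib]
  have e2 : ∑ i, ∑ j, (if i = v then 2 * (sgn (w v) * (A v j * sgn (w j))) else 0) =
      2 * (sgn (w v) * ∑ j, A v j * sgn (w j)) := by
    rw [sum_comm]
    simp only [sum_ite_eq', mem_univ, if_true, mul_sum]
  have e3 : ∑ i, ∑ j, (if j = v then 2 * (sgn (w v) * (A v i * sgn (w i))) else 0) =
      2 * (sgn (w v) * ∑ j, A v j * sgn (w j)) := by
    simp only [sum_ite_eq', mem_univ, if_true, mul_sum]
  rw [e2, e3]
  ring

theorem Q_neg (A : Fin N → Fin N → ℤ) (w : Fin N → Bool) : Q A (fun i => !w i) = Q A w := by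
  have h : ∀ b : Bool, sgn (!b) = -sgn b := by intro b; cases b <;> simp [sgn]
  unfold Q
  refine sum_congr rfl fun i _ => sum_congr rfl fun j _ => ?_
  rw [h, h, neg_mul_neg]

/-- the vertices of `M` are moved to the side `false` -/
def mv (w : Fin N → Bool) (M : Finset (Fin N)) (v : Fin N) : Bool := if v ∈ M then false else w v

theorem mv_insert (w : Fin N → Bool) (M : Finset (Fin N)) (v : Fin N) (hw : w v = true)
    (hv : v ∉ M) : mv w (insert v M) = update (mv w M) v (!mv w M v) := by
  funext i
  by_cases h : i = v
  · subst h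
    simp [mv, hw, hv]
  · simp [mv, h]

theorem rs_mv (A : Fin N → Fin N → ℤ) (w : Fin N → Bool) (M : Finset (Fin N))
    (hM : ∀ j ∈ M, w j = true) (v : Fin N) :
    rs A (mv w M) v = rs A w v - 2 * ∑ j ∈ M, A v j := by
  unfold rs
  have e1 : ∀ j, A v j * sgn (mv w M j) = A v j * sgn (w j) - (if j ∈ M then 2 * A v j else 0) := by
    intro j
    unfold mv
    by_cases h : j ∈ M
    · rw [if_pos h, if_pos h, hM j h]
      simp [sgn]
      ring
    · rw [if_neg h, if_neg h]
      ring
  simp only [e1, sum_sub_distrib]
  congr 1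
  rw [← sum_filter, mul_sum]
  refine sum_congr ?_ fun _ _ => rfl
  ext j; simp

theorem Q_mv (A : Fin N → Fin N → ℤ) (hs : ∀ i j, A i j = A j i) (hd : ∀ i, A i i = 0)
    (w : Fin N → Bool) (M : Finset (Fin N)) (hM : ∀ j ∈ M, w j = true) (v : Fin N)
    (hw : w v = true) (hv : v ∉ M) :
    Q A (mv w (insert v M)) = Q A (mv w M) - 4 * rs A w v + 8 * ∑ j ∈ M, A v j := by
  have h1 : mv w M v = true := by simp [mv, hv, hw]
  rw [mv_insert w M v hw hv, Q_flip A hs hd, rs_mv A w M hM, h1]
  simp only [sgn, if_true]
  ring

/-- **Moving the vertices of one side of a locally maximal cut**: at least half of the moves can be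
chosen to change the value strictly. -/
theorem chain (A : Fin N → Fin N → ℤ) (hs : ∀ i j, A i j = A j i) (hd : ∀ i, A i i = 0)
    (h0 : ∀ i j, 0 ≤ A i j) (hi : ∀ i, ∃ j, A i j ≠ 0) (w : Fin N → Bool)
    (hw : ∀ v, w v = true → rs A w v ≤ 0) :
    ∀ (k : ℕ) (M : Finset (Fin N)), (∀ v ∈ M, w v = true) →
      (univ.filter fun v => w v = true ∧ v ∉ M).card = k →
      k ≤ 2 * ((univ.image (Q A)).filter fun q => Q A (mv w M) < q).card := by
  intro k
  induction k using Nat.strong_induction_on with
  | _ k ih =>
    intro M hM hk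
    have hinsM : ∀ v, w v = true → ∀ u ∈ insert v M, w u = true := by
      intro v hv u hu
      rcases mem_insert.1 hu with rfl | h
      · exact hv
      · exact hM u h
    have hcard : ∀ v, w v = true → v ∉ M →
        (univ.filter fun u => w u = true ∧ u ∉ insert v M).card + 1 = k := by
      intro v hv hvM
      rw [← hk]
      have e : (univ.filter fun u => w u = true ∧ u ∉ M) =
          insert v (univ.filter fun u => w u = true ∧ u ∉ insert v M) := by
        ext u
        simp only [mem_filter, mem_univ, true_and, mem_insert, not_or]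
        constructor
        · rintro ⟨h1, h2⟩
          by_cases h : u = v
          · exact Or.inl h
          · exact Or.inr ⟨h1, h, h2⟩
        · rintro (rfl | ⟨h1, _, h2⟩)
          · exact ⟨hv, hvM⟩
          · exact ⟨h1, h2⟩
      rw [e, card_insert_of_notMem]
      simp
    have hsum : ∀ v, 0 ≤ ∑ j ∈ M, A v j := fun v => sum_nonneg fun j _ => h0 v j
    have hstep : ∀ M' : Finset (Fin N), Q A (mv w M) < Q A (mv w M') →
        ((univ.image (Q A)).filter fun q => Q A (mv w M') < q).card + 1 ≤
          ((univ.image (Q A)).filter fun q => Q A (mv w M) < q).card := by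
      intro M' hlt
      rw [← card_insert_of_notMem (a := Q A (mv w M'))
        (s := (univ.image (Q A)).filter fun q => Q A (mv w M') < q) (by simp)]
      refine card_le_card ?_
      intro q hq
      rw [mem_insert, mem_filter] at hq
      rw [mem_filter]
      rcases hq with rfl | ⟨h1, h2⟩
      · exact ⟨mem_image_of_mem _ (mem_univ _), hlt⟩
      · exact ⟨h1, hlt.trans h2⟩
    rcases Nat.eq_zero_or_pos k with rfl | hkpos
    · exact Nat.zero_le _
    by_cases hc : ∃ v, w v = true ∧ v ∉ M ∧ (rs A w v < 0 ∨ 0 < ∑ j ∈ M, A v j)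
    · obtain ⟨v, hv, hvM, hstrict⟩ := hc
      have h1 := Q_mv A hs hd w M hM v hv hvM
      have h2 : Q A (mv w M) < Q A (mv w (insert v M)) := by
        have h3 := hw v hv
        have h4 := hsum v
        rcases hstrict with h | h <;> omega
      have h5 := hcard v hv hvM
      have h6 := ih _ (by omega) (insert v M) (hinsM v hv) rfl
      have h7 := hstep _ h2
      omega
    · push Not at hc
      have hne : (univ.filter fun v => w v = true ∧ v ∉ M).Nonempty := by
        rw [← card_pos, hk]; exact hkpos
      obtain ⟨v, hv⟩ := hne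
      rw [mem_filter] at hv
      obtain ⟨-, hv, hvM⟩ := hv
      obtain ⟨hr, hm⟩ := hc v hv hvM
      have hr0 : rs A w v = 0 := le_antisymm (hw v hv) hr
      have hm0 : ∑ j ∈ M, A v j = 0 := le_antisymm hm (hsum v)
      -- a neighbour on the same side
      obtain ⟨u, hu, huv⟩ : ∃ u, w u = true ∧ A v u ≠ 0 := by
        by_contra hcon
        push Not at hcon
        obtain ⟨j, hj⟩ := hi v
        have e1 : ∀ j, A v j * sgn (w j) = -A v j := by
          intro j
          cases hwj : w j
          · simp [sgn]
          · rw [hcon j hwj]; simp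
        have e2 : rs A w v = -∑ j, A v j := by
          unfold rs
          rw [← sum_neg_distrib]
          exact sum_congr rfl fun j _ => e1 j
        have e3 : 0 < ∑ j, A v j :=
          sum_pos' (fun j _ => h0 v j) ⟨j, mem_univ j, lt_of_le_of_ne (h0 v j) (Ne.symm hj)⟩
        omega
      have huM : u ∉ M := by
        intro h
        exact huv ((sum_eq_zero_iff_of_nonneg fun j _ => h0 v j).1 hm0 u h)
      have hne : u ≠ v := by
        rintro rfl
        exact huv (hd u)
      have h1 := Q_mv A hs hd w M hM v hv hvM
      have h2 := Q_mv A hs hd w (insert v M) (hinsM v hv) u hu (by simp [hne, huM])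
      have h3 : 0 < ∑ j ∈ insert v M, A u j := by
        refine sum_pos' (fun j _ => h0 u j) ⟨v, mem_insert_self v M, ?_⟩
        exact lt_of_le_of_ne (h0 u v) (by rw [hs u v]; exact Ne.symm huv)
      have h4 := hw u hu
      have h5 : Q A (mv w M) < Q A (mv w (insert u (insert v M))) := by omega
      have h6 := hcard v hv hvM
      have h7 : (univ.filter fun z => w z = true ∧ z ∉ insert u (insert v M)).card + 2 = k := by
        have e : (univ.filter fun z => w z = true ∧ z ∉ insert v M) =
            insert u (univ.filter fun z => w z = true ∧ z ∉ insert u (insert v M)) := by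
          ext z
          simp only [mem_filter, mem_univ, true_and, mem_insert, not_or]
          constructor
          · rintro ⟨h1, h2, h3⟩
            by_cases h : z = u
            · exact Or.inl h
            · exact Or.inr ⟨h1, h, h2, h3⟩
          · rintro (rfl | ⟨h1, _, h2, h3⟩)
            · exact ⟨hu, hne, huM⟩
            · exact ⟨h1, h2, h3⟩
        rw [e, card_insert_of_notMem (by simp)] at h6
        omega
      have h8 : ∀ z ∈ insert u (insert v M), w z = true := by
        intro z hz
        rcases mem_insert.1 hz with rfl | h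
        · exact hu
        · exact hinsM v hv z h
      have h9 := ih _ (by omega) (insert u (insert v M)) h8 rfl
      have h10 := hstep _ h5
      omega

/-- **A graph on `N` vertices without isolated vertices has at least `N / 4 + 1` different cut
sizes.** -/
theorem card_values (A : Fin N → Fin N → ℤ) (hs : ∀ i j, A i j = A j i) (hd : ∀ i, A i i = 0)
    (h0 : ∀ i j, 0 ≤ A i j) (hi : ∀ i, ∃ j, A i j ≠ 0) :
    N + 4 ≤ 4 * (univ.image (Q A)).card := by
  classical
  obtain ⟨w₀, hw₀⟩ : ∃ w₀, ∀ w, Q A w₀ ≤ Q A w := by
    obtain ⟨w₀, -, h⟩ := exists_min_image (univ : Finset (Fin N → Bool)) (Q A) univ_nonempty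
    exact ⟨w₀, fun w => h w (mem_univ w)⟩
  obtain ⟨w, hw, hcard⟩ : ∃ w, (∀ w', Q A w ≤ Q A w') ∧
      N ≤ 2 * (univ.filter fun v => w v = true).card := by
    have hsplit := card_filter_add_card_filter_not (s := (univ : Finset (Fin N)))
      (fun v => w₀ v = true)
    rw [card_univ, Fintype.card_fin] at hsplit
    by_cases h : N ≤ 2 * (univ.filter fun v => w₀ v = true).card
    · exact ⟨w₀, hw₀, h⟩
    · refine ⟨fun i => !w₀ i, fun w' => by rw [Q_neg]; exact hw₀ w', ?_⟩
      have e : (univ.filter fun v => (!w₀ v) = true) = univ.filter fun v => ¬ w₀ v = true := by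
        ext v; simp
      rw [e]
      omega
  have hopt : ∀ v, w v = true → rs A w v ≤ 0 := by
    intro v hv
    have h1 := hw (update w v (!w v))
    rw [Q_flip A hs hd, hv] at h1
    simp only [sgn, if_true] at h1
    omega
  have h1 := chain A hs hd h0 hi w hopt _ ∅ (by simp) rfl
  have e1 : (univ.filter fun v => w v = true ∧ v ∉ (∅ : Finset (Fin N))) =
      univ.filter fun v => w v = true := by
    ext v; simp
  rw [e1] at h1
  have h2 : ((univ.image (Q A)).filter fun q => Q A (mv w ∅) < q).card + 1 ≤
      (univ.image (Q A)).card := by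
    rw [← card_insert_of_notMem (a := Q A (mv w ∅))
      (s := (univ.image (Q A)).filter fun q => Q A (mv w ∅) < q) (by simp)]
    refine card_le_card ?_
    intro q hq
    rw [mem_insert, mem_filter] at hq
    rcases hq with rfl | ⟨h1, h2⟩
    · exact mem_image_of_mem _ (mem_univ _)
    · exact h1
  omega

end Pool.Agent.Q174.Sh
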