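import Pool.Agent.H832R2.JR.Moment
import Pool.Agent.H832R3.VJ.V5

set_option autoImplicit false

/-!
# Shadows, their resolutions, and isotopy of knot diagrams

A shadow (a generic closed curve) with `N` crossings is described as follows.  Number the crossings
and travel once along the curve, starting at a point which is not a crossing.  Every crossing is
passed twice; `(c, false)` and `(c, true)` are the two passages of the crossing `c`.  The Gauss word
`G : Fin N × Bool ≃ Fin (2 * N)` gives for every passage its place in the sequence of all passages.
The half edge `((c, b), false)` enters the crossing `c` at its passage `(c, b)` and the half edge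
`((c, b), true)` leaves it.  `ε c` tells whether the passage `(c, true)` crosses the passage
`(c, false)` from left to right (`true`) or from right to left (`false`).

The regions of the complement are obtained by gluing corners along the edges; the curve can be
drawn on the sphere (equivalently: in the plane) exactly if there are `N + 2` regions (Euler).
-/

namespace Pool.Agent.Q174.Sh

open Pool.Agent.H832R2.JR Pool.Agent.H891R2.Jones Pool.Agent.H832R3.VJ

/-! ## Shadows -/

/-- The half edge following a half edge counterclockwise around its crossing.  The counterclockwise
order is: the entering half edge of the passage `false`, then the half edge of the passage `true` on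
its right, the leaving half edge of the passage `false`, and the half edge of the passage `true`
on its left. -/
def rot {N : ℕ} (ε : Fin N → Bool) : Half N → Half N
  | ((c, false), e) => ((c, true), xor e (ε c))
  | ((c, true), e) => ((c, false), !(xor e (ε c)))

/-- The corner `x` is the corner between the half edges `x` and `rot ε x`.  The corners `x` and `y`
are related if they lie on the same side of an edge, at its two ends: `x` and `rot ε y` are the two
ends of the edge. -/
def SameSide {N : ℕ} (G : GaussWord N) (ε : Fin N → Bool) (x y : Half N) : Prop :=
  rot ε y = arcFun G x

/-- the regions of the complement of a shadow (with at least one crossing) -/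
abbrev Region {N : ℕ} (G : GaussWord N) (ε : Fin N → Bool) : Type := Quot (SameSide G ε)

/-- A shadow with `N` crossings in the plane (or on the sphere). -/
structure Shadow (N : ℕ) where
  /-- the sequence of the passages -/
  G : GaussWord N
  /-- the directions of the passages -/
  ε : Fin N → Bool
  /-- Euler's formula for the sphere: `N` crossings, `2 * N` edges and `N + 2` regions -/
  plane : 0 < N → Nat.card (Region G ε) = N + 2

/-- The crossing `c` is nugatory: two opposite corners at `c` lie in the same region (hence there is
a simple closed curve which runs in this region from one of the two corners to the other one and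
which meets the shadow only at `c`). -/
def Shadow.Nugatory {N : ℕ} (S : Shadow N) (c : Fin N) : Prop :=
  ∃ x : Half N, x.1.1 = c ∧
    (Quot.mk _ x : Region S.G S.ε) = (Quot.mk _ (rot S.ε (rot S.ε x)) : Region S.G S.ε)

/-- the shadow has no nugatory crossings -/
def Shadow.Reduced {N : ℕ} (S : Shadow N) : Prop := ∀ c, ¬ S.Nugatory c

/-! ## Plane knot diagrams and isotopy -/

/-- two marked points are joined by an arc or by a strand of a crossing -/
def Through {P : Type} (D : Diagram P) (p q : P) : Prop :=
  (p, q) ∈ D.arcs ∨ ∃ x ∈ D.crossings, (p = x.a ∧ q = x.c) ∨ (p = x.b ∧ q = x.d)

/-- The two sides of (the strand through) the marked point `p` are `(p, true)` (on the left with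
respect to the orientation) and `(p, false)` (on the right).  Two sides are related if they belong
to the same side of an arc or to the same corner of a crossing. -/
def SideRel {P : Type} (D : Diagram P) (u v : P × Bool) : Prop :=
  (∃ p q s, (p, q) ∈ D.arcs ∧ u = (p, s) ∧ v = (q, s)) ∨
  ∃ x ∈ D.crossings,
    (u = (x.a, !x.underFwd) ∧ v = (x.b, x.overFwd)) ∨
    (u = (x.b, !x.overFwd) ∧ v = (x.c, !x.underFwd)) ∨
    (u = (x.c, x.underFwd) ∧ v = (x.d, !x.overFwd)) ∨
    (u = (x.d, x.overFwd) ∧ v = (x.a, x.underFwd))

/-- `X` is a diagram of an oriented knot on the sphere: a link diagram with one component, and by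
Euler's formula the number of regions is the number of crossings plus `2`. -/
def PlaneKnot (X : Dia) : Prop :=
  X.IsLink ∧ Nat.card (Quot (Through X.D)) = 1 ∧
    Nat.card (Quot (SideRel X.D)) = X.D.crossings.length + 2

/-- the diagram with the opposite orientation -/
def reverse (X : Dia) : Dia :=
  ⟨X.P, X.fin, ⟨X.D.arcs.map Prod.swap,
    X.D.crossings.map fun x => ⟨x.a, x.b, x.c, x.d, !x.underFwd, !x.overFwd⟩⟩⟩

/-- One step between diagrams of the same (unoriented) knot: both are plane knot diagrams, and they
differ by one of the moves (relabelling, subdivision, Reidemeister moves) or by the orientation. -/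
def Step (X Y : Dia) : Prop := PlaneKnot X ∧ PlaneKnot Y ∧ (Move X Y ∨ Y = reverse X)

/-- The isotopy classes: the classes of the equivalence relation generated by the steps.  (The
isotopy classes of knots are the classes of the plane knot diagrams.) -/
abbrev IsotopyClass : Type 1 := Quot Step

/-! ## Resolutions -/

/-- The crossing `c` of the resolution `o`: the passage `(c, o c)` is the overstrand.  The
half edge `a` is the one by which the understrand enters; the others follow counterclockwise. -/
def crossing {N : ℕ} (ε o : Fin N → Bool) (c : Fin N) : Crossing (Half N) :=
  ⟨((c, !o c), false), rot ε ((c, !o c), false), rot ε (rot ε ((c, !o c), false)),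
    rot ε (rot ε (rot ε ((c, !o c), false))), true, !(rot ε ((c, !o c), false)).2⟩

/-- The diagram given by a Gauss word and the choice `o` of the overstrands; the marked points are
the half edges. -/
def diagram {N : ℕ} (G : GaussWord N) (ε o : Fin N → Bool) : Diagram (Half N) :=
  ⟨(List.finRange N).map (fun c => (((c, false), true), (next G (c, false), false))) ++
    (List.finRange N).map (fun c => (((c, true), true), (next G (c, true), false))),
    (List.finRange N).map (crossing ε o)⟩

/-- The diagram obtained from the shadow `S` by the over/under choices `o` (`o c`: the passage
`(c, o c)` is the overstrand); for a shadow without crossings the circle. -/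
def Shadow.dia {N : ℕ} (S : Shadow N) (o : Fin N → Bool) : Dia :=
  if N = 0 then unknot else ⟨Half N, inferInstance, diagram S.G S.ε o⟩

/-- `f(S)`: the number of isotopy classes of knots into which the shadow `S` resolves -/
noncomputable def Shadow.f {N : ℕ} (S : Shadow N) : ℕ :=
  Nat.card (Set.range fun o : Fin N → Bool => (Quot.mk Step (S.dia o) : IsotopyClass))

end Pool.Agent.Q174.Sh
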