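import Pool.Agent.Q174.Sh.Defs

set_option autoImplicit false

/-! The normalised bracket is an invariant of the isotopy classes. -/

namespace Pool.Agent.Q174.Sh

open Finset Function LaurentPolynomial
open Pool.Agent.H832R2.JR Pool.Agent.H891R2.Jones Pool.Agent.H832R3.VJ

/-- the diagram with all directions reversed -/
def rev {P : Type} (D : Diagram P) : Diagram P :=
  ⟨D.arcs.map Prod.swap, D.crossings.map fun x => ⟨x.a, x.b, x.c, x.d, !x.underFwd, !x.overFwd⟩⟩

theorem len_rev {P : Type} (D : Diagram P) : (rev D).crossings.length = D.crossings.length := by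
  simp [rev]

theorem get_rev {P : Type} (D : Diagram P) (i : Fin (rev D).crossings.length) :
    (rev D).crossings[i].a = D.crossings[Fin.cast (len_rev D) i].a ∧
    (rev D).crossings[i].b = D.crossings[Fin.cast (len_rev D) i].b ∧
    (rev D).crossings[i].c = D.crossings[Fin.cast (len_rev D) i].c ∧
    (rev D).crossings[i].d = D.crossings[Fin.cast (len_rev D) i].d := by
  have h : (rev D).crossings[(i : ℕ)] =
      ⟨(D.crossings[(i : ℕ)]'(i.2.trans_eq (len_rev D))).a,
        (D.crossings[(i : ℕ)]'(i.2.trans_eq (len_rev D))).b,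
        (D.crossings[(i : ℕ)]'(i.2.trans_eq (len_rev D))).c,
        (D.crossings[(i : ℕ)]'(i.2.trans_eq (len_rev D))).d,
        !(D.crossings[(i : ℕ)]'(i.2.trans_eq (len_rev D))).underFwd,
        !(D.crossings[(i : ℕ)]'(i.2.trans_eq (len_rev D))).overFwd⟩ := by
    simp only [rev, List.getElem_map]
  refine ⟨?_, ?_, ?_, ?_⟩
  · show (rev D).crossings[(i : ℕ)].a = _
    rw [h]; rfl
  · show (rev D).crossings[(i : ℕ)].b = _
    rw [h]; rfl
  · show (rev D).crossings[(i : ℕ)].c = _
    rw [h]; rfl
  · show (rev D).crossings[(i : ℕ)].d = _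
    rw [h]; rfl

theorem writhe_rev {P : Type} (D : Diagram P) : (rev D).writhe = D.writhe := by
  unfold Diagram.writhe
  simp only [rev, List.map_map]
  congr 1
  refine List.map_congr_left fun x _ => ?_
  simp only [comp_apply, Crossing.sign]
  cases x.underFwd <;> cases x.overFwd <;> simp

theorem loops_rev {P : Type} (D : Diagram P) (s : Fin (rev D).crossings.length → Bool) :
    (rev D).loops s = D.loops (fun i => s (Fin.cast (len_rev D).symm i)) := by
  unfold Diagram.loops
  refine card_quot_congr _ _ ?_ ?_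
  · intro x y h
    rcases h with h | ⟨i, h⟩
    · have h1 : (y, x) ∈ D.arcs := by
        simp only [rev, List.mem_map] at h
        obtain ⟨⟨u, v⟩, huv, h2⟩ := h
        simp only [Prod.swap, Prod.mk.injEq] at h2
        obtain ⟨rfl, rfl⟩ := h2
        exact huv
      exact Eq.symm (Quot.sound (Or.inl h1))
    · refine Quot.sound (Or.inr ⟨Fin.cast (len_rev D) i, ?_⟩)
      obtain ⟨h1, h2, h3, h4⟩ := get_rev D i
      rw [h1, h2, h3, h4] at h
      exact h
  · intro x y h
    rcases h with h | ⟨i, h⟩
    · have h1 : (y, x) ∈ (rev D).arcs := by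
        simp only [rev, List.mem_map]
        exact ⟨(x, y), h, rfl⟩
      exact Eq.symm (Quot.sound (Or.inl h1))
    · refine Quot.sound (Or.inr ⟨Fin.cast (len_rev D).symm i, ?_⟩)
      obtain ⟨h1, h2, h3, h4⟩ := get_rev D (Fin.cast (len_rev D).symm i)
      rw [h1, h2, h3, h4]
      exact h

theorem fPoly_rev {P : Type} (D : Diagram P) : (rev D).fPoly = D.fPoly := by
  unfold Diagram.fPoly
  rw [writhe_rev]
  congr 1
  unfold Diagram.bracket
  refine Fintype.sum_equiv (Equiv.arrowCongr (finCongr (len_rev D)) (Equiv.refl Bool)) _ _ ?_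
  intro s
  rw [loops_rev]
  congr 1
  congr 1
  unfold Diagram.weight
  exact Fintype.sum_equiv (finCongr (len_rev D)) _ _ fun i => rfl

theorem fPoly_step (X Y : Dia) (h : Step X Y) : X.D.fPoly = Y.D.fPoly := by
  obtain ⟨hX, hY, h | rfl⟩ := h
  · exact fPoly_move X Y hX.1 hY.1 h
  · exact (fPoly_rev X.D).symm

/-- the normalised bracket as a function on the isotopy classes -/
noncomputable def fClass : IsotopyClass → ℤ[T;T⁻¹] := Quot.lift (fun X => X.D.fPoly) fPoly_step

theorem fClass_mk (X : Dia) : fClass (Quot.mk Step X) = X.D.fPoly := rfl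

end Pool.Agent.Q174.Sh
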