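import Pool.Agent.Q174.Sh.Nug

set_option autoImplicit false

/-! The resolutions of a shadow are plane knot diagrams. -/

namespace Pool.Agent.Q174.Sh

open Finset Function
open Pool.Agent.H832R2.JR Pool.Agent.H891R2.Jones Pool.Agent.H832R3.VJ

variable {N : ℕ}

theorem rot_two (ε : Fin N → Bool) (c : Fin N) (b e : Bool) :
    rot ε (rot ε ((c, b), e)) = ((c, b), !e) := by
  cases b <;> cases e <;> cases h : ε c <;> simp [rot, h]

theorem rot_two' (ε : Fin N → Bool) (x : Half N) : rot ε (rot ε x) = (x.1, !x.2) :=
  rot_two ε x.1.1 x.1.2 x.2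

theorem rot_pass (ε : Fin N → Bool) (c : Fin N) (b e : Bool) :
    (rot ε ((c, b), e)).1 = (c, !b) := by
  cases b <;> rfl

theorem over_start (ε o : Fin N → Bool) (c : Fin N) :
    (if (crossing ε o c).overFwd = true then (crossing ε o c).b else (crossing ε o c).d) =
      ((c, o c), false) := by
  have h1 := rot_pass ε c (!o c) false
  rw [Bool.not_not] at h1
  have hb : (crossing ε o c).b = rot ε ((c, !o c), false) := rfl
  have hd : (crossing ε o c).d = rot ε (rot ε (rot ε ((c, !o c), false))) := rfl
  have ho : (crossing ε o c).overFwd = !(rot ε ((c, !o c), false)).2 := rfl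
  by_cases h : (rot ε ((c, !o c), false)).2 = true
  · rw [ho, h, if_neg (by simp), hd, rot_two', h1, h]
    rfl
  · rw [Bool.not_eq_true] at h
    rw [ho, h, if_pos (by simp), hb]
    exact Prod.ext h1 h

theorem over_end (ε o : Fin N → Bool) (c : Fin N) :
    (if (crossing ε o c).overFwd = true then (crossing ε o c).d else (crossing ε o c).b) =
      ((c, o c), true) := by
  have h1 := rot_pass ε c (!o c) false
  rw [Bool.not_not] at h1
  have hb : (crossing ε o c).b = rot ε ((c, !o c), false) := rfl
  have hd : (crossing ε o c).d = rot ε (rot ε (rot ε ((c, !o c), false))) := rfl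
  have ho : (crossing ε o c).overFwd = !(rot ε ((c, !o c), false)).2 := rfl
  by_cases h : (rot ε ((c, !o c), false)).2 = true
  · rw [ho, h, if_neg (by simp), hb]
    exact Prod.ext h1 h
  · rw [Bool.not_eq_true] at h
    rw [ho, h, if_pos (by simp), hd, rot_two', h1, h]
    rfl

/-! ### closed curves -/

open Classical in
theorem count_inj {P : Type} [DecidableEq P] (f : Fin N → P) (hinj : Injective f) (p : P) :
    ((List.finRange N).map f).count p = if ∃ c, f c = p then 1 else 0 := by
  split_ifs with h
  · obtain ⟨c, rfl⟩ := h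
    refine List.count_eq_one_of_mem ((List.nodup_finRange N).map hinj) ?_
    rw [List.mem_map]
    exact ⟨c, List.mem_finRange _, rfl⟩
  · rw [List.count_eq_zero, List.mem_map]
    rintro ⟨c, -, rfl⟩
    exact h ⟨c, rfl⟩

theorem starts_diagram (G : GaussWord N) (ε o : Fin N → Bool) :
    (diagram G ε o).starts =
      ((List.finRange N).map (fun c => (((c, false), true) : Half N)) ++
        (List.finRange N).map (fun c => (((c, true), true) : Half N))) ++
      (List.finRange N).map (fun c => (((c, !o c), false) : Half N)) ++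
      (List.finRange N).map (fun c => (((c, o c), false) : Half N)) := by
  unfold Diagram.starts diagram
  simp only [List.map_append, List.map_map]
  congr 1
  refine List.map_congr_left fun c _ => ?_
  exact over_start ε o c

theorem ends_diagram (G : GaussWord N) (ε o : Fin N → Bool) :
    (diagram G ε o).ends =
      ((List.finRange N).map (fun c => ((next G (c, false), false) : Half N)) ++
        (List.finRange N).map (fun c => ((next G (c, true), false) : Half N))) ++
      (List.finRange N).map (fun c => (((c, !o c), true) : Half N)) ++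
      (List.finRange N).map (fun c => (((c, o c), true) : Half N)) := by
  unfold Diagram.ends diagram
  simp only [List.map_append, List.map_map]
  congr 1
  · congr 1
    refine List.map_congr_left fun c _ => ?_
    simp only [comp_apply, crossing, rot_two, if_true, Bool.not_false]
  · refine List.map_congr_left fun c _ => ?_
    exact over_end ε o c

theorem isClosed_diagram (G : GaussWord N) (ε o : Fin N → Bool) :
    (diagram G ε o).IsClosed := by
  have i1 : ∀ b e, Injective (fun c : Fin N => (((c, b), e) : Half N)) := by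
    intro b e c d h
    simpa using h
  have i2 : ∀ (o : Fin N → Bool) e, Injective (fun c : Fin N => (((c, o c), e) : Half N)) := by
    intro o e c d h
    simp only [Prod.mk.injEq] at h
    exact h.1.1
  have i3 : ∀ b, Injective (fun c : Fin N => ((next G (c, b), false) : Half N)) := by
    intro b c d h
    simpa using h
  intro p
  rw [starts_diagram, ends_diagram]
  simp only [List.count_append]
  constructor
  · rw [count_inj _ (i1 _ _), count_inj _ (i1 _ _), count_inj _ (i2 (fun c => !o c) _),
      count_inj _ (i2 _ _)]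
    rcases p with ⟨⟨c, b⟩, e⟩
    cases b <;> cases e <;> cases h : o c <;> simp [h]
  · rw [count_inj _ (i3 _), count_inj _ (i3 _), count_inj _ (i2 (fun c => !o c) _),
      count_inj _ (i2 _ _)]
    rcases p with ⟨q, e⟩
    cases e
    · obtain ⟨⟨c, b⟩, rfl⟩ := (next G).surjective q
      cases b <;> simp
    · obtain ⟨c, b⟩ := q
      cases b <;> cases h : o c <;> simp [h]

theorem isLink_diagram (G : GaussWord N) (ε o : Fin N → Bool) (hN : 0 < N) :
    Dia.IsLink ⟨Half N, inferInstance, diagram G ε o⟩ := by
  constructor
  · exact ⟨((⟨0, hN⟩, false), false)⟩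
  · have h := isClosed_diagram G ε o
    have hi : ∀ i j : DecidableEq (Half N), @Diagram.IsClosed (Half N) i (diagram G ε o) →
        @Diagram.IsClosed (Half N) j (diagram G ε o) := by
      intro i j h
      rw [Subsingleton.elim j i]
      exact h
    exact hi _ _ h

/-! ### one component -/

theorem through_diagram (G : GaussWord N) (ε o : Fin N → Bool) (hN : 0 < N) :
    Nat.card (Quot (Through (diagram G ε o))) = 1 := by
  rw [← L_zero G ⟨0, hN⟩]
  unfold L
  refine card_quot_congr _ _ ?_ ?_
  · rintro x y (h | ⟨z, hz, h⟩)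
    · simp only [diagram, List.mem_append, List.mem_map, List.mem_finRange, true_and,
        Prod.mk.injEq] at h
      rcases h with ⟨c, rfl, rfl⟩ | ⟨c, rfl, rfl⟩
      · exact Quot.sound (Or.inl rfl)
      · exact Quot.sound (Or.inl rfl)
    · simp only [diagram, List.mem_map, List.mem_finRange, true_and] at hz
      obtain ⟨c, rfl⟩ := hz
      rcases h with ⟨rfl, rfl⟩ | ⟨rfl, rfl⟩
      · refine Quot.sound (Or.inr ?_)
        simp only [crossing, rot_two, smooth, if_true]
      · refine Quot.sound (Or.inr ?_)
        simp only [crossing, smooth, if_true]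
        exact rot_two' ε _
  · have harc : ∀ p, Quot.mk (Through (diagram G ε o)) (p, true) =
        Quot.mk (Through (diagram G ε o)) (next G p, false) := by
      rintro ⟨c, b⟩
      refine Quot.sound (Or.inl ?_)
      simp only [diagram, List.mem_append, List.mem_map, List.mem_finRange, true_and]
      cases b
      · exact Or.inl ⟨c, rfl⟩
      · exact Or.inr ⟨c, rfl⟩
    have hst : ∀ p, Quot.mk (Through (diagram G ε o)) (p, true) =
        Quot.mk (Through (diagram G ε o)) (p, false) := by
      rintro ⟨c, b⟩
      have hmem : crossing ε o c ∈ (diagram G ε o).crossings := by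
        simp only [diagram, List.mem_map, List.mem_finRange, true_and]
        exact ⟨c, rfl⟩
      have h1 : Quot.mk (Through (diagram G ε o)) (crossing ε o c).a =
          Quot.mk (Through (diagram G ε o)) (crossing ε o c).c :=
        Quot.sound (Or.inr ⟨_, hmem, Or.inl ⟨rfl, rfl⟩⟩)
      have h2 : Quot.mk (Through (diagram G ε o)) (crossing ε o c).b =
          Quot.mk (Through (diagram G ε o)) (crossing ε o c).d :=
        Quot.sound (Or.inr ⟨_, hmem, Or.inr ⟨rfl, rfl⟩⟩)
      cases b <;> cases h3 : o c <;> cases h4 : ε c <;>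
        simp [crossing, rot, h3, h4] at h1 h2 <;>
        first | exact h1 | exact h1.symm | exact h2 | exact h2.symm
    rintro ⟨p, e⟩ y (rfl | rfl)
    · cases e
      · show Quot.mk _ (p, false) = Quot.mk _ ((next G).symm p, true)
        rw [harc, Equiv.apply_symm_apply]
      · exact harc p
    · simp only [smooth, if_true]
      cases e
      · exact (hst p).symm
      · exact hst p

/-! ### the regions -/

/-- the class of a side of a marked point -/
def sideMk (G : GaussWord N) (ε o : Fin N → Bool) (u : Half N × Bool) :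
    Quot (SideRel (diagram G ε o)) := Quot.mk _ u

theorem side_arc (G : GaussWord N) (ε o : Fin N → Bool) (x : Half N) (s : Bool) :
    sideMk G ε o (arcFun G x, s) = sideMk G ε o (x, s) := by
  have harc : ∀ p s, sideMk G ε o ((p, true), s) = sideMk G ε o ((next G p, false), s) := by
    rintro ⟨c, b⟩ s
    refine Quot.sound (Or.inl ⟨((c, b), true), (next G (c, b), false), s, ?_, rfl, rfl⟩)
    simp only [diagram, List.mem_append, List.mem_map, List.mem_finRange, true_and]
    cases b
    · exact Or.inl ⟨c, rfl⟩
    · exact Or.inr ⟨c, rfl⟩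
  rcases x with ⟨p, _ | _⟩
  · show sideMk G ε o (((next G).symm p, true), s) = _
    rw [harc, Equiv.apply_symm_apply]
  · exact (harc p s).symm

theorem side_corner (G : GaussWord N) (ε o : Fin N → Bool) (y : Half N) :
    sideMk G ε o (y, y.2) = sideMk G ε o (rot ε y, !(rot ε y).2) := by
  rcases y with ⟨⟨c, b⟩, e⟩
  have hmem : crossing ε o c ∈ (diagram G ε o).crossings := by
    simp only [diagram, List.mem_map, List.mem_finRange, true_and]
    exact ⟨c, rfl⟩
  have h1 : sideMk G ε o ((crossing ε o c).a, !(crossing ε o c).underFwd) =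
      sideMk G ε o ((crossing ε o c).b, (crossing ε o c).overFwd) :=
    Quot.sound (Or.inr ⟨_, hmem, Or.inl ⟨rfl, rfl⟩⟩)
  have h2 : sideMk G ε o ((crossing ε o c).b, !(crossing ε o c).overFwd) =
      sideMk G ε o ((crossing ε o c).c, !(crossing ε o c).underFwd) :=
    Quot.sound (Or.inr ⟨_, hmem, Or.inr (Or.inl ⟨rfl, rfl⟩)⟩)
  have h3 : sideMk G ε o ((crossing ε o c).c, (crossing ε o c).underFwd) =
      sideMk G ε o ((crossing ε o c).d, !(crossing ε o c).overFwd) :=
    Quot.sound (Or.inr ⟨_, hmem, Or.inr (Or.inr (Or.inl ⟨rfl, rfl⟩))⟩)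
  have h4 : sideMk G ε o ((crossing ε o c).d, (crossing ε o c).overFwd) =
      sideMk G ε o ((crossing ε o c).a, (crossing ε o c).underFwd) :=
    Quot.sound (Or.inr ⟨_, hmem, Or.inr (Or.inr (Or.inr ⟨rfl, rfl⟩))⟩)
  cases b <;> cases e <;> cases ho : o c <;> cases he : ε c <;>
    simp [crossing, rot, ho, he] at h1 h2 h3 h4 ⊢ <;>
    first | exact h1 | exact h2 | exact h3 | exact h4

theorem region_rot (G : GaussWord N) (ε : Fin N → Bool) (x y : Half N)
    (h : rot ε y = arcFun G x) : (Quot.mk _ x : Region G ε) = Quot.mk _ y := Quot.sound h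

/-- the region on a side of a marked point -/
def toRegion (G : GaussWord N) (ε : Fin N → Bool) (u : Half N × Bool) : Region G ε :=
  if u.2 = u.1.2 then Quot.mk _ u.1 else Quot.mk _ (rot ε (rot ε (rot ε u.1)))

theorem toRegion_corner (G : GaussWord N) (ε : Fin N → Bool) (y : Half N) :
    toRegion G ε (rot ε y, !(rot ε y).2) = Quot.mk _ y := by
  unfold toRegion
  rw [if_neg (by simp), rot_four]

theorem toRegion_self (G : GaussWord N) (ε : Fin N → Bool) (y : Half N) :
    toRegion G ε (y, y.2) = Quot.mk _ y := by
  unfold toRegion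
  rw [if_pos rfl]

theorem toRegion_sound (G : GaussWord N) (ε o : Fin N → Bool) (u v : Half N × Bool)
    (h : SideRel (diagram G ε o) u v) : toRegion G ε u = toRegion G ε v := by
  rcases h with ⟨p, q, s, hpq, rfl, rfl⟩ | ⟨x, hx, h⟩
  · obtain ⟨r, rfl, rfl⟩ : ∃ r, p = (r, true) ∧ q = (next G r, false) := by
      simp only [diagram, List.mem_append, List.mem_map, List.mem_finRange, true_and,
        Prod.mk.injEq] at hpq
      rcases hpq with ⟨c, rfl, rfl⟩ | ⟨c, rfl, rfl⟩
      · exact ⟨_, rfl, rfl⟩
      · exact ⟨_, rfl, rfl⟩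
    cases s
    · have e1 : toRegion G ε ((next G r, false), false) = Quot.mk _ (next G r, false) :=
        toRegion_self G ε _
      have e2 : toRegion G ε ((r, true), false) =
          Quot.mk _ (rot ε (rot ε (rot ε (r, true)))) := by
        unfold toRegion
        rw [if_neg (by simp)]
      rw [e1, e2]
      refine (region_rot G ε _ _ ?_).symm
      rw [rot_four]
      show (r, true) = ((next G).symm (next G r), true)
      rw [Equiv.symm_apply_apply]
    · have e1 : toRegion G ε ((r, true), true) = Quot.mk _ (r, true) := toRegion_self G ε _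
      have e2 : toRegion G ε ((next G r, false), true) =
          Quot.mk _ (rot ε (rot ε (rot ε (next G r, false)))) := by
        unfold toRegion
        rw [if_neg (by simp)]
      rw [e1, e2]
      refine region_rot G ε _ _ ?_
      rw [rot_four]
      rfl
  · simp only [diagram, List.mem_map, List.mem_finRange, true_and] at hx
    obtain ⟨c, rfl⟩ := hx
    set a : Half N := ((c, !o c), false) with ha
    have ea : (crossing ε o c).a = a := rfl
    have eb : (crossing ε o c).b = rot ε a := rfl
    have ec : (crossing ε o c).c = rot ε (rot ε a) := rfl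
    have ed : (crossing ε o c).d = rot ε (rot ε (rot ε a)) := rfl
    have euf : (crossing ε o c).underFwd = true := rfl
    have eof : (crossing ε o c).overFwd = !(rot ε a).2 := rfl
    have sa : a.2 = false := rfl
    have sc : (rot ε (rot ε a)).2 = true := by rw [rot_two' ε a, sa]; rfl
    have sd : (rot ε (rot ε (rot ε a))).2 = !(rot ε a).2 := by rw [rot_two' ε (rot ε a)]
    rw [ea, eb, ec, ed, euf, eof, Bool.not_not] at h
    rcases h with ⟨rfl, rfl⟩ | ⟨rfl, rfl⟩ | ⟨rfl, rfl⟩ | ⟨rfl, rfl⟩
    · rw [toRegion_corner]
      exact toRegion_self G ε a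
    · have h1 := toRegion_corner G ε (rot ε a)
      rw [sc] at h1
      rw [h1]
      exact toRegion_self G ε (rot ε a)
    · have h1 := toRegion_corner G ε (rot ε (rot ε a))
      rw [sd, Bool.not_not] at h1
      rw [h1]
      have h2 := toRegion_self G ε (rot ε (rot ε a))
      rw [sc] at h2
      exact h2
    · have h1 := toRegion_corner G ε (rot ε (rot ε (rot ε a)))
      rw [rot_four, sa] at h1
      have h2 := toRegion_self G ε (rot ε (rot ε (rot ε a)))
      rw [sd] at h2
      rw [h2]
      exact h1.symm

theorem ofRegion_sound (G : GaussWord N) (ε o : Fin N → Bool) (x y : Half N)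
    (h : SameSide G ε x y) : sideMk G ε o (x, x.2) = sideMk G ε o (y, y.2) := by
  have h1 : (arcFun G x).2 = !x.2 := by rcases x with ⟨p, _ | _⟩ <;> rfl
  rw [side_corner, side_corner G ε o y]
  have h2 : rot ε y = arcFun G x := h
  rw [h2, h1, Bool.not_not, side_arc, ← side_corner]

/-- the regions of the shadow are the regions of the diagram -/
def regionEquiv (G : GaussWord N) (ε o : Fin N → Bool) :
    Quot (SideRel (diagram G ε o)) ≃ Region G ε where
  toFun := Quot.lift (toRegion G ε) (toRegion_sound G ε o)
  invFun := Quot.lift (fun x => sideMk G ε o (x, x.2)) (ofRegion_sound G ε o)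
  left_inv := by
    rintro ⟨x, s⟩
    show Quot.lift (fun x => sideMk G ε o (x, x.2)) (ofRegion_sound G ε o) (toRegion G ε (x, s)) =
      sideMk G ε o (x, s)
    by_cases h : s = x.2
    · subst h
      rw [toRegion_self]
    · have h1 : s = !x.2 := by
        revert h
        cases s <;> cases x.2 <;> simp
      subst h1
      have h2 := toRegion_corner G ε (rot ε (rot ε (rot ε x)))
      rw [rot_four] at h2
      rw [h2]
      show sideMk G ε o (rot ε (rot ε (rot ε x)), (rot ε (rot ε (rot ε x))).2) = _
      rw [side_corner, rot_four]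
  right_inv := by
    rintro ⟨x⟩
    exact toRegion_self G ε x

theorem planeKnot_diagram (S : Shadow N) (o : Fin N → Bool) (hN : 0 < N) :
    PlaneKnot ⟨Half N, inferInstance, diagram S.G S.ε o⟩ := by
  refine ⟨isLink_diagram S.G S.ε o hN, through_diagram S.G S.ε o hN, ?_⟩
  show Nat.card (Quot (SideRel (diagram S.G S.ε o))) = (diagram S.G S.ε o).crossings.length + 2
  rw [Nat.card_congr (regionEquiv S.G S.ε o), S.plane hN]
  simp [diagram]

theorem planeKnot_unknot : PlaneKnot unknot := by
  refine ⟨⟨⟨()⟩, ?_⟩, ?_, ?_⟩
  · intro p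
    have h : ∀ (i : DecidableEq Unit) (p : Unit),
        @List.count Unit (@instBEqOfDecidableEq Unit i) p [()] = 1 := by
      intro i p
      rcases p with ⟨⟩
      simp
    exact ⟨h _ p, h _ p⟩
  · have h1 : Subsingleton (Quot (Through unknot.D)) := by
      constructor
      rintro ⟨⟨⟩⟩ ⟨⟨⟩⟩
      rfl
    have h2 : Nonempty (Quot (Through unknot.D)) := ⟨Quot.mk _ ()⟩
    exact Nat.card_eq_one_iff_unique.mpr ⟨h1, h2⟩
  · have e : Quot (SideRel unknot.D) ≃ Bool := by
      refine ⟨Quot.lift Prod.snd ?_, fun s => Quot.mk _ ((), s), ?_, ?_⟩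
      · rintro u v (⟨p, q, s, -, rfl, rfl⟩ | ⟨x, hx, -⟩)
        · rfl
        · exact absurd hx List.not_mem_nil
      · rintro ⟨⟨⟨⟩, s⟩⟩
        rfl
      · intro s
        rfl
    rw [Nat.card_congr e]
    simp [unknot]

/-- **all resolutions are plane knot diagrams** -/
theorem planeKnot_dia (S : Shadow N) (o : Fin N → Bool) : PlaneKnot (S.dia o) := by
  unfold Shadow.dia
  split_ifs with h
  · exact planeKnot_unknot
  · exact planeKnot_diagram S o (Nat.pos_of_ne_zero h)

end Pool.Agent.Q174.Sh
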