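import Pool.Agent.Q174.Sh.Cut
import Pool.Agent.Q174.Sh.Br
import Pool.Agent.Q174.Sh.Inv
import Pool.Agent.Q174.Sh.Pl

set_option autoImplicit false

/-! The number of knots from a reduced shadow is at least `N / 4 + 1`. -/

namespace Pool.Agent.Q174.Sh

open Finset Function LaurentPolynomial
open Pool.Agent.H832R2.JR Pool.Agent.H891R2.Jones Pool.Agent.H832R3.VJ

variable {N : ℕ}

/-- the second moment of the normalised bracket as a function on the isotopy classes -/
noncomputable def mom (q : IsotopyClass) : ℤ := rho (fClass q) 0 2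

theorem sg_surj (ε w : Fin N → Bool) : ∃ o, sg ε o = w := by
  refine ⟨fun c => w c == ε c, ?_⟩
  funext c
  simp only [sg]
  cases w c <;> cases ε c <;> rfl

theorem one_le_f (S : Shadow N) : 1 ≤ S.f := by
  unfold Shadow.f
  have h1 : Finite (Set.range fun o : Fin N → Bool =>
    (Quot.mk Step (S.dia o) : IsotopyClass)) := (Set.finite_range _).to_subtype
  have h2 : Nonempty (Set.range fun o : Fin N → Bool =>
    (Quot.mk Step (S.dia o) : IsotopyClass)) := ⟨⟨_, (fun _ => false), rfl⟩⟩
  exact Nat.card_pos

theorem crosses_of_reduced (S : Shadow N) (h : S.Reduced) (i : Fin N) : ∃ j, Crosses S.G i j := by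
  by_contra hcon
  push Not at hcon
  exact h i (nugatory_of_isolated S i hcon)

theorem mom_dia (S : Shadow N) (hN : 0 < N) :
    ∃ K : ℤ, ∀ o, mom (Quot.mk Step (S.dia o)) = K - 12 * Q (adjm S.G) (sg S.ε o) := by
  obtain ⟨K, hK⟩ := second_moment S.G ⟨0, hN⟩
  refine ⟨K, fun o => ?_⟩
  rw [← hK]
  unfold mom
  have h1 : S.dia o = ⟨Half N, inferInstance, diagram S.G S.ε o⟩ := by
    unfold Shadow.dia
    rw [if_neg (by omega)]
  rw [h1, fClass_mk]
  show rho (diagram S.G S.ε o).fPoly 0 2 = _
  rw [fPoly_diagram]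

/-- **The number of isotopy classes of knots obtained from a reduced shadow.** -/
theorem card_classes (S : Shadow N) (h : S.Reduced) : N + 4 ≤ 4 * S.f := by
  classical
  rcases Nat.eq_zero_or_pos N with rfl | hN
  · have := one_le_f S
    omega
  obtain ⟨K, hK⟩ := mom_dia S hN
  have h1 := card_values (adjm S.G) (adjm_symm S.G)
    (fun i => by unfold adjm; rw [if_neg (not_crosses_self S.G i)])
    (fun i j => by unfold adjm; split_ifs <;> norm_num)
    (fun i => by
      obtain ⟨j, hj⟩ := crosses_of_reduced S h i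
      exact ⟨j, by unfold adjm; rw [if_pos hj]; norm_num⟩)
  refine h1.trans (Nat.mul_le_mul_left 4 ?_)
  set R : Set IsotopyClass := Set.range fun o : Fin N → Bool =>
    (Quot.mk Step (S.dia o) : IsotopyClass) with hR
  have hfin : R.Finite := Set.finite_range _
  have e1 : S.f = R.ncard := by
    unfold Shadow.f
    rw [← Nat.card_coe_set_eq]
  have e2 : mom '' R = ((univ.image (Q (adjm S.G))).image fun q => K - 12 * q : Finset ℤ) := by
    ext z
    simp only [hR, Set.mem_image, Set.mem_range, coe_image, coe_univ, Set.image_univ,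
      exists_exists_eq_and]
    constructor
    · rintro ⟨o, rfl⟩
      exact ⟨sg S.ε o, (hK o).symm⟩
    · rintro ⟨w, rfl⟩
      obtain ⟨o, rfl⟩ := sg_surj S.ε w
      exact ⟨o, hK o⟩
  have h2 : (mom '' R).ncard ≤ R.ncard := Set.ncard_image_le hfin
  rw [e2, Set.ncard_coe_finset, card_image_of_injective _ (fun a b hab => by
    have : K - 12 * a = K - 12 * b := hab
    omega)] at h2
  rw [e1]
  exact h2

end Pool.Agent.Q174.Sh
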