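import Pool.Agent.Q174.Sh.Defs

set_option autoImplicit false

/-! In a reduced shadow every chord crosses another chord. -/

namespace Pool.Agent.Q174.Sh

open Finset Function Pool.Agent.H832R2.JR Pool.Agent.H891R2.Jones Pool.Agent.H832R3.VJ

variable {N : ℕ}

theorem rot_four (ε : Fin N → Bool) (x : Half N) : rot ε (rot ε (rot ε (rot ε x))) = x := by
  rcases x with ⟨⟨c, b⟩, e⟩
  cases b <;> cases e <;> cases h : ε c <;> simp [rot, h]

theorem rot_fst (ε : Fin N → Bool) (x : Half N) : (rot ε x).1.1 = x.1.1 := by
  rcases x with ⟨⟨c, b⟩, e⟩
  cases b <;> rfl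

theorem rot_bij (ε : Fin N → Bool) : Bijective (rot ε) := by
  refine bijective_iff_has_inverse.2 ⟨fun x => rot ε (rot ε (rot ε x)), fun x => ?_, fun x => ?_⟩
  · exact rot_four ε x
  · exact rot_four ε x

theorem arcFun_bij (G : GaussWord N) : Bijective (arcFun G) :=
  bijective_iff_has_inverse.2 ⟨arcFun G, arcFun_inv G, arcFun_inv G⟩

/-- the indicator of a Boolean -/
def ind (b : Bool) : ℤ := if b then 1 else 0

theorem ind_not (b : Bool) : ind (!b) = 1 - ind b := by cases b <;> simp [ind]

theorem nugatory_of_isolated (S : Shadow N) (i : Fin N) (h : ∀ j, ¬ Crosses S.G i j) :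
    S.Nugatory i := by
  classical
  set G := S.G with hG
  set ε := S.ε with hε
  -- a function which is constant on the regions
  have key : ∀ f : Half N → ℤ, (∀ x y, SameSide G ε x y → f x = f y) →
      ∑ b : Bool, ∑ e : Bool, (ind (chi G i (rot ε ((i, b), e))) - ind (chi G i ((i, b), e))) *
        f ((i, b), e) = 0 := by
    intro f hf
    have h1 : ∑ y : Half N, ind (chi G i (rot ε y)) * f y = ∑ x : Half N, ind (chi G i x) * f x := by
      rw [← ((arcFun_bij G).comp (rot_bij ε)).sum_comp (fun x => ind (chi G i x) * f x)]
      refine sum_congr rfl fun y _ => ?_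
      simp only [comp_apply]
      rw [chi_arc, hf (arcFun G (rot ε y)) y (arcFun_inv G (rot ε y)).symm]
    have h2 : ∑ y : Half N, (ind (chi G i (rot ε y)) - ind (chi G i y)) * f y = 0 := by
      simp only [sub_mul, sum_sub_distrib, h1, sub_self]
    rw [Fintype.sum_prod_type, Fintype.sum_prod_type, sum_eq_single i] at h2
    · exact h2
    · intro c _ hc
      have hX : ∀ b e, chi G i ((c, b), e) = chi G i ((c, false), false) := by
        intro b e
        have h3 : chi G i ((c, b), e) = chi G i ((c, b), false) := by
          cases e
          · rfl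
          · exact chi_pass G i c hc b false
        rw [h3]
        cases b
        · rfl
        · exact (chi_other G i c hc false false).2 (h c)
      refine sum_eq_zero fun b _ => sum_eq_zero fun e _ => ?_
      have h4 : chi G i (rot ε ((c, b), e)) = chi G i ((c, b), e) := by
        rw [hX b e]
        cases b
        · exact hX _ _
        · exact hX _ _
      rw [h4, sub_self, zero_mul]
    · intro h3
      exact absurd (mem_univ i) h3
  have c1 : chi G i ((i, false), true) = !chi G i ((i, false), false) :=
    chi_self_pass G i false false
  have c2 : chi G i ((i, true), true) = chi G i ((i, false), false) :=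
    chi_self_or G i false false
  have c3 : chi G i ((i, true), false) = !chi G i ((i, false), false) := by
    rw [← c1]; exact chi_self_or G i false true
  cases he : ε i
  · refine ⟨((i, false), false), rfl, ?_⟩
    have hr : rot ε (rot ε ((i, false), false)) = ((i, false), true) := by simp [rot, he]
    rw [← hε, ← hG, hr]
    by_contra hcon
    have h5 := key (fun x => if (Quot.mk _ x : Region G ε) = Quot.mk _ ((i, false), false) then 1
      else 0) (by
        intro x y hxy
        have : (Quot.mk _ x : Region G ε) = Quot.mk _ y := Quot.sound hxy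
        simp only [this])
    simp only [Fintype.sum_bool, rot, he, Bool.xor_false, Bool.not_true, Bool.not_false, c1, c2,
      c3, ind_not, if_true, if_neg (Ne.symm hcon)] at h5
    cases hX : chi G i ((i, false), false) <;> rw [hX] at h5 <;> simp [ind] at h5
  · refine ⟨((i, true), false), rfl, ?_⟩
    have hr : rot ε (rot ε ((i, true), false)) = ((i, true), true) := by simp [rot, he]
    rw [← hε, ← hG, hr]
    by_contra hcon
    have h5 := key (fun x => if (Quot.mk _ x : Region G ε) = Quot.mk _ ((i, true), false) then 1
      else 0) (by
        intro x y hxy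
        have : (Quot.mk _ x : Region G ε) = Quot.mk _ y := Quot.sound hxy
        simp only [this])
    simp only [Fintype.sum_bool, rot, he, Bool.xor_true, Bool.not_true, Bool.not_false, c1, c2,
      c3, ind_not, if_true, if_neg (Ne.symm hcon)] at h5
    cases hX : chi G i ((i, false), false) <;> rw [hX] at h5 <;> simp [ind] at h5

end Pool.Agent.Q174.Sh
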